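import Pool.Agent.J4H12.TB.Stm

/-!
# A tight pair cannot be unbounded in both time directions (job TB-ESC)
-/

set_option autoImplicit false

namespace Pool.Agent.J4H98.TB

open Filter Topology Set
open Pool.Agent.J4H12.TB

theorem dt_self (z : ℂ) : dt z z = ‖z‖ ^ 2 := by
  rw [Complex.sq_norm, Complex.normSq_apply, dt]

theorem abs_dt_le (z w : ℂ) : |dt z w| ≤ ‖z‖ * ‖w‖ := by
  have h : dt z w = (z * (starRingEnd ℂ) w).re := by
    simp [dt]
  rw [h]
  calc |(z * (starRingEnd ℂ) w).re| ≤ ‖z * (starRingEnd ℂ) w‖ := Complex.abs_re_le_norm _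
    _ = ‖z‖ * ‖w‖ := by simp

theorem dt_comm (z w : ℂ) : dt z w = dt w z := by
  simp [dt, mul_comm]

theorem hasDerivAt_re {f : ℝ → ℂ} {f' : ℂ} {t : ℝ} (hf : HasDerivAt f f' t) :
    HasDerivAt (fun t => (f t).re) f'.re t :=
  (Complex.reCLM.hasFDerivAt (x := f t)).comp_hasDerivAt t hf

theorem hasDerivAt_im {f : ℝ → ℂ} {f' : ℂ} {t : ℝ} (hf : HasDerivAt f f' t) :
    HasDerivAt (fun t => (f t).im) f'.im t :=
  (Complex.imCLM.hasFDerivAt (x := f t)).comp_hasDerivAt t hf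

theorem hasDerivAt_dt {f g : ℝ → ℂ} {f' g' : ℂ} {t : ℝ} (hf : HasDerivAt f f' t)
    (hg : HasDerivAt g g' t) :
    HasDerivAt (fun t => dt (f t) (g t)) (dt f' (g t) + dt (f t) g') t := by
  have h := ((hasDerivAt_re hf).mul (hasDerivAt_re hg)).add ((hasDerivAt_im hf).mul (hasDerivAt_im hg))
  refine h.congr_deriv ?_
  simp only [dt]
  ring

theorem hasDerivAt_norm {f : ℝ → ℂ} {f' : ℂ} {t : ℝ} (hf : HasDerivAt f f' t) (h0 : f t ≠ 0) :
    HasDerivAt (fun t => ‖f t‖) (dt (f t) f' / ‖f t‖) t := by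
  have h1 : (fun t => ‖f t‖) = fun t => √(dt (f t) (f t)) := by
    funext t
    rw [dt_self, Real.sqrt_sq (norm_nonneg _)]
  have hn : 0 < ‖f t‖ := norm_pos_iff.2 h0
  have h2 := (hasDerivAt_dt hf hf).sqrt (by rw [dt_self]; positivity)
  rw [h1]
  refine h2.congr_deriv ?_
  rw [dt_self, Real.sqrt_sq (norm_nonneg _), dt_comm f' (f t)]
  field_simp
  ring

/-- derivative of the Kepler energy -/
theorem hasDerivAt_eps {μ ν M C E : ℝ} {r w X Y F G : ℝ → ℂ} {P : ℝ → ℝ}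
    (h : Two μ ν M C E r w X Y F G P) (t : ℝ) :
    HasDerivAt (eps M r w) (dt (w t) (F t)) t := by
  have hn : 0 < ‖r t‖ := norm_pos_iff.2 (h.r0 t)
  have h1 := ((hasDerivAt_dt (h.dw t) (h.dw t)).div_const 2).sub
    ((hasDerivAt_norm (h.dr t) (h.r0 t)).inv hn.ne' |>.const_mul M)
  have h2 : (eps M r w) = fun t => dt (w t) (w t) / 2 - M * ‖r t‖⁻¹ := by
    funext t
    rw [dt_self, eps, div_eq_mul_inv M]
  rw [h2]
  refine h1.congr_deriv ?_
  have h3 : ∀ (a : ℝ) (z : ℂ) (u : ℂ), dt (-(a : ℂ) * z + u) (w t) = - a * dt z (w t) + dt u (w t) := by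
    intro a z u
    simp [dt]
    ring
  have h4 : ∀ (a : ℝ) (z : ℂ) (u : ℂ), dt (w t) (-(a : ℂ) * z + u) = - a * dt z (w t) + dt u (w t) := by
    intro a z u
    simp [dt]
    ring
  rw [h3, h4, dt_comm (w t) (F t)]
  field_simp
  ring

/-- the estimates while the pair is tight -/
theorem tight {μ ν M C E : ℝ} {r w X Y F G : ℝ → ℂ} {P : ℝ → ℝ}
    (h : Two μ ν M C E r w X Y F G P) (L R t₀ T : ℝ) (hR : 0 < R) (hT : t₀ ≤ T)
    (hL1 : 8 * M ≤ L) (hL2 : 4 * C * ν ≤ μ * L) (hL3 : 8 * C * M * √(2 * ν / μ) ≤ L ^ 2)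
    (hX0 : ‖X t₀‖ = R) (hg0 : 0 ≤ dt (X t₀) (Y t₀))
    (he : ∀ u ∈ Icc t₀ T, eps M r w u ≤ -(L / (2 * R))) (hX : ∀ u ∈ Icc t₀ T, R / 2 ≤ ‖X u‖) :
    R ≤ ‖X T‖ ∧ eps M r w T ≤ eps M r w t₀ + L / (4 * R) := by
  have hμ := h.μ0
  have hν := h.ν0
  have hM := h.M0
  have hC := h.C0
  have hL : 0 < L := by linarith
  -- (1)
  have a1 : ∀ u ∈ Icc t₀ T, ‖r u‖ ≤ 2 * M * R / L ∧ ‖w u‖ ^ 2 ≤ 2 * M / ‖r u‖ ∧
      2 * ‖r u‖ ≤ ‖X u‖ := by
    intro u hu
    have hn : 0 < ‖r u‖ := norm_pos_iff.2 (h.r0 u)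
    have h1 := he u hu
    have h2 := hX u hu
    unfold eps at h1
    have h3 : 0 ≤ ‖w u‖ ^ 2 / 2 := by positivity
    have h4 : L / (2 * R) ≤ M / ‖r u‖ := by linarith
    have h5 : ‖r u‖ ≤ 2 * M * R / L := by
      rw [le_div_iff₀ hL]
      rw [div_le_div_iff₀ (by positivity) hn] at h4
      linarith
    refine ⟨h5, ?_, ?_⟩
    · have h6 : 0 < L / (2 * R) := by positivity
      have h7 : 2 * M / ‖r u‖ = 2 * (M / ‖r u‖) := by ring
      rw [h7]
      linarith
    · have h8 : 2 * M * R / L ≤ R / 4 := by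
        rw [div_le_div_iff₀ hL (by norm_num)]
        nlinarith
      linarith
  -- (2), (3)
  set k2 : ℝ := μ * L / (2 * ν * R) with hk2
  have hk2p : 0 < k2 := by positivity
  have a2 : ∀ u ∈ Icc t₀ T, k2 ≤ dt (Y u) (Y u) + dt (X u) (G u) := by
    intro u hu
    obtain ⟨-, -, h3⟩ := a1 u hu
    obtain ⟨hP, hF, hG⟩ := h.far u h3
    have h4 := h.en u
    have h5 := he u hu
    unfold eps at h5
    have h6 := h.P0 u
    have h7 := h.E0
    have h8 : 2 * k2 ≤ dt (Y u) (Y u) := by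
      rw [dt_self]
      have h9 : μ * (‖w u‖ ^ 2 / 2 - M / ‖r u‖) ≤ μ * (-(L / (2 * R))) :=
        mul_le_mul_of_nonneg_left h5 hμ.le
      have h10 : μ * (L / (2 * R)) ≤ ν * ‖Y u‖ ^ 2 / 2 := by linarith
      have h11 : 2 * k2 = (μ * (L / (2 * R))) * (2 / ν) := by
        rw [hk2]; field_simp
      rw [h11]
      calc (μ * (L / (2 * R))) * (2 / ν) ≤ (ν * ‖Y u‖ ^ 2 / 2) * (2 / ν) :=
            mul_le_mul_of_nonneg_right h10 (by positivity)
        _ = ‖Y u‖ ^ 2 := by field_simp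
    have h12 : -(2 * C / R) ≤ dt (X u) (G u) := by
      have h13 := abs_le.1 (abs_dt_le (X u) (G u))
      have hXp : 0 < ‖X u‖ := by have := hX u hu; linarith
      have h14 : ‖X u‖ * ‖G u‖ ≤ 2 * C / R := by
        calc ‖X u‖ * ‖G u‖ ≤ ‖X u‖ * (C / ‖X u‖ ^ 2) := mul_le_mul_of_nonneg_left hG hXp.le
          _ = C / ‖X u‖ := by field_simp
          _ ≤ C / (R / 2) := by
              apply div_le_div_of_nonneg_left hC.le (by positivity) (hX u hu)
          _ = 2 * C / R := by field_simp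
      linarith [h13.1]
    have h15 : 2 * C / R ≤ k2 := by
      rw [hk2, div_le_div_iff₀ hR (by positivity)]
      nlinarith
    linarith
  have a3 : ∀ u ∈ Icc t₀ T, k2 * (u - t₀) ≤ dt (X u) (Y u) := by
    have hd : ∀ u, HasDerivAt (fun u => dt (X u) (Y u) - k2 * (u - t₀))
        (dt (Y u) (Y u) + dt (X u) (G u) - k2 * 1) u := fun u =>
      (hasDerivAt_dt (h.dX u) (h.dY u)).sub (((hasDerivAt_id u).sub_const t₀).const_mul k2)
    have hm : MonotoneOn (fun u => dt (X u) (Y u) - k2 * (u - t₀)) (Icc t₀ T) := by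
      apply monotoneOn_of_deriv_nonneg (convex_Icc t₀ T)
      · exact fun u _ => (hd u).continuousAt.continuousWithinAt
      · exact fun u _ => (hd u).differentiableAt.differentiableWithinAt
      · intro u hu
        rw [interior_Icc] at hu
        rw [(hd u).deriv]
        have := a2 u ⟨hu.1.le, hu.2.le⟩
        linarith
    intro u hu
    have := hm ⟨le_rfl, hT⟩ hu hu.1
    simp only [sub_self, mul_zero, sub_zero] at this
    linarith
  have a4 : ∀ u ∈ Icc t₀ T, R ^ 2 + k2 * (u - t₀) ^ 2 ≤ ‖X u‖ ^ 2 := by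
    have hd : ∀ u, HasDerivAt (fun u => dt (X u) (X u) - k2 * (u - t₀) ^ 2)
        (dt (Y u) (X u) + dt (X u) (Y u) - k2 * (2 * (u - t₀) ^ 1 * 1)) u := fun u =>
      (hasDerivAt_dt (h.dX u) (h.dX u)).sub ((((hasDerivAt_id u).sub_const t₀).pow 2).const_mul k2)
    have hm : MonotoneOn (fun u => dt (X u) (X u) - k2 * (u - t₀) ^ 2) (Icc t₀ T) := by
      apply monotoneOn_of_deriv_nonneg (convex_Icc t₀ T)
      · exact fun u _ => (hd u).continuousAt.continuousWithinAt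
      · exact fun u _ => (hd u).differentiableAt.differentiableWithinAt
      · intro u hu
        rw [interior_Icc] at hu
        rw [(hd u).deriv, dt_comm (Y u) (X u)]
        have := a3 u ⟨hu.1.le, hu.2.le⟩
        linarith
    intro u hu
    have := hm ⟨le_rfl, hT⟩ hu hu.1
    simp only [sub_self, dt_self, hX0] at this
    linarith
  -- (4)
  have hq : ∀ u : ℝ, 0 < R ^ 2 + k2 * (u - t₀) ^ 2 := fun u => by positivity
  set c0 : ℝ := 2 * C * M * √(R / L) with hc0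
  have hc0p : 0 ≤ c0 := by positivity
  have a5 : ∀ u ∈ Icc t₀ T, dt (w u) (F u) ≤
      c0 * (1 / ((R ^ 2 + k2 * (u - t₀) ^ 2) * √(R ^ 2 + k2 * (u - t₀) ^ 2))) := by
    intro u hu
    obtain ⟨h1, h2, h3⟩ := a1 u hu
    obtain ⟨-, hF, -⟩ := h.far u h3
    have hn : 0 < ‖r u‖ := norm_pos_iff.2 (h.r0 u)
    have hXp : 0 < ‖X u‖ := by have := hX u hu; linarith
    have h4 : ‖w u‖ ≤ √(2 * M / ‖r u‖) := Real.le_sqrt_of_sq_le h2
    have h5 : dt (w u) (F u) ≤ √(2 * M / ‖r u‖) * (C * ‖r u‖ / ‖X u‖ ^ 3) :=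
      (le_abs_self _).trans ((abs_dt_le _ _).trans
        (mul_le_mul h4 hF (norm_nonneg _) (Real.sqrt_nonneg _)))
    have h6 : √(2 * M / ‖r u‖) * ‖r u‖ ≤ 2 * M * √(R / L) := by
      have h7 : √(2 * M / ‖r u‖) * ‖r u‖ = √(2 * M * ‖r u‖) := by
        rw [eq_comm, Real.sqrt_eq_iff_mul_self_eq (by positivity) (by positivity)]
        have h8 := Real.mul_self_sqrt (show 0 ≤ 2 * M / ‖r u‖ by positivity)
        refine Eq.symm ?_
        calc √(2 * M / ‖r u‖) * ‖r u‖ * (√(2 * M / ‖r u‖) * ‖r u‖)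
            = (√(2 * M / ‖r u‖) * √(2 * M / ‖r u‖)) * ‖r u‖ ^ 2 := by ring
          _ = 2 * M / ‖r u‖ * ‖r u‖ ^ 2 := by rw [h8]
          _ = 2 * M * ‖r u‖ := by field_simp
      rw [h7, Real.sqrt_le_left (by positivity)]
      calc 2 * M * ‖r u‖ ≤ 2 * M * (2 * M * R / L) :=
            mul_le_mul_of_nonneg_left h1 (by positivity)
        _ = (2 * M) ^ 2 * (R / L) := by ring
        _ = (2 * M) ^ 2 * (√(R / L)) ^ 2 := by rw [Real.sq_sqrt (by positivity)]
        _ = (2 * M * √(R / L)) ^ 2 := by ring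
    have h9 : (R ^ 2 + k2 * (u - t₀) ^ 2) * √(R ^ 2 + k2 * (u - t₀) ^ 2) ≤ ‖X u‖ ^ 3 := by
      have h10 := a4 u hu
      have h11 : √(R ^ 2 + k2 * (u - t₀) ^ 2) ≤ ‖X u‖ := by
        rw [Real.sqrt_le_left hXp.le]
        exact h10
      calc (R ^ 2 + k2 * (u - t₀) ^ 2) * √(R ^ 2 + k2 * (u - t₀) ^ 2) ≤ ‖X u‖ ^ 2 * ‖X u‖ :=
            mul_le_mul h10 h11 (Real.sqrt_nonneg _) (by positivity)
        _ = ‖X u‖ ^ 3 := by ring
    have hqp := hq u
    calc dt (w u) (F u) ≤ √(2 * M / ‖r u‖) * (C * ‖r u‖ / ‖X u‖ ^ 3) := h5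
      _ = C * (√(2 * M / ‖r u‖) * ‖r u‖) * (1 / ‖X u‖ ^ 3) := by ring
      _ ≤ C * (2 * M * √(R / L)) *
          (1 / ((R ^ 2 + k2 * (u - t₀) ^ 2) * √(R ^ 2 + k2 * (u - t₀) ^ 2))) := by
          apply mul_le_mul
          · exact mul_le_mul_of_nonneg_left h6 hC.le
          · exact one_div_le_one_div_of_le (by positivity) h9
          · positivity
          · positivity
      _ = _ := by rw [hc0]; ring
  have hA : ∀ u : ℝ, HasDerivAt (fun u => (u - t₀) / (R ^ 2 * √(R ^ 2 + k2 * (u - t₀) ^ 2)))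
      (1 / ((R ^ 2 + k2 * (u - t₀) ^ 2) * √(R ^ 2 + k2 * (u - t₀) ^ 2))) u := by
    intro u
    have hqp := hq u
    have hd1 : HasDerivAt (fun u : ℝ => R ^ 2 + k2 * (u - t₀) ^ 2)
        (k2 * (2 * (u - t₀) ^ 1 * 1)) u :=
      ((((hasDerivAt_id u).sub_const t₀).pow 2).const_mul k2).const_add (R ^ 2)
    have hd2 := (hd1.sqrt hqp.ne').const_mul (R ^ 2)
    have hs : 0 < √(R ^ 2 + k2 * (u - t₀) ^ 2) := Real.sqrt_pos.2 hqp
    have hd3 := ((hasDerivAt_id u).sub_const t₀).div hd2 (by positivity)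
    refine hd3.congr_deriv ?_
    simp only [id]
    have hs2 : √(R ^ 2 + k2 * (u - t₀) ^ 2) ^ 2 = R ^ 2 + k2 * (u - t₀) ^ 2 :=
      Real.sq_sqrt hqp.le
    set s : ℝ := √(R ^ 2 + k2 * (u - t₀) ^ 2) with hsdef
    have hR2 : R ^ 2 = s ^ 2 - k2 * (u - t₀) ^ 2 := by rw [hs2]; ring
    rw [show R ^ 2 + k2 * (u - t₀) ^ 2 = s ^ 2 from hs2.symm]
    have hRne : R ≠ 0 := hR.ne'
    field_simp
    rw [hR2]
    ring
  have a6 : eps M r w T ≤ eps M r w t₀ +
      c0 * ((T - t₀) / (R ^ 2 * √(R ^ 2 + k2 * (T - t₀) ^ 2))) := by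
    have hd : ∀ u, HasDerivAt (fun u => eps M r w u -
        c0 * ((u - t₀) / (R ^ 2 * √(R ^ 2 + k2 * (u - t₀) ^ 2))))
        (dt (w u) (F u) - c0 * (1 / ((R ^ 2 + k2 * (u - t₀) ^ 2) *
          √(R ^ 2 + k2 * (u - t₀) ^ 2)))) u := fun u =>
      (hasDerivAt_eps h u).sub ((hA u).const_mul c0)
    have hm : AntitoneOn (fun u => eps M r w u -
        c0 * ((u - t₀) / (R ^ 2 * √(R ^ 2 + k2 * (u - t₀) ^ 2)))) (Icc t₀ T) := by
      apply antitoneOn_of_deriv_nonpos (convex_Icc t₀ T)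
      · exact fun u _ => (hd u).continuousAt.continuousWithinAt
      · exact fun u _ => (hd u).differentiableAt.differentiableWithinAt
      · intro u hu
        rw [interior_Icc] at hu
        rw [(hd u).deriv]
        have := a5 u ⟨hu.1.le, hu.2.le⟩
        linarith
    have := hm ⟨le_rfl, hT⟩ ⟨hT, le_rfl⟩ hT
    simp only [sub_self, zero_div, mul_zero, sub_zero] at this
    linarith
  have a7 : c0 * ((T - t₀) / (R ^ 2 * √(R ^ 2 + k2 * (T - t₀) ^ 2))) ≤ L / (4 * R) := by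
    have hs0 : 0 ≤ T - t₀ := by linarith
    have h1 : (T - t₀) / (R ^ 2 * √(R ^ 2 + k2 * (T - t₀) ^ 2)) ≤ 1 / (R ^ 2 * √k2) := by
      have hqp := hq T
      have hs : 0 < √(R ^ 2 + k2 * (T - t₀) ^ 2) := Real.sqrt_pos.2 hqp
      have hk : 0 < √k2 := Real.sqrt_pos.2 hk2p
      rw [div_le_div_iff₀ (by positivity) (by positivity)]
      have h2 : (T - t₀) * √k2 ≤ √(R ^ 2 + k2 * (T - t₀) ^ 2) := by
        apply Real.le_sqrt_of_sq_le
        rw [mul_pow, Real.sq_sqrt hk2p.le]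
        nlinarith [sq_nonneg R]
      calc (T - t₀) * (R ^ 2 * √k2) = R ^ 2 * ((T - t₀) * √k2) := by ring
        _ ≤ R ^ 2 * √(R ^ 2 + k2 * (T - t₀) ^ 2) := mul_le_mul_of_nonneg_left h2 (sq_nonneg _)
        _ = _ := by ring
    refine (mul_le_mul_of_nonneg_left h1 hc0p).trans ?_
    have h3 : √(R / L) / √k2 = √(2 * ν / μ) * R / L := by
      rw [← Real.sqrt_div (by positivity)]
      have h4 : R / L / k2 = (2 * ν / μ) * (R / L) ^ 2 := by
        rw [hk2]; field_simp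
      rw [h4, Real.sqrt_mul (by positivity), Real.sqrt_sq (by positivity)]
      ring
    have h5 : c0 * (1 / (R ^ 2 * √k2)) = 2 * C * M * √(2 * ν / μ) / (L * R) := by
      calc c0 * (1 / (R ^ 2 * √k2)) = 2 * C * M * (√(R / L) / √k2) / R ^ 2 := by
            rw [hc0]; field_simp
        _ = 2 * C * M * (√(2 * ν / μ) * R / L) / R ^ 2 := by rw [h3]
        _ = _ := by field_simp
    rw [h5, div_le_div_iff₀ (by positivity) (by positivity)]
    nlinarith
  have a8 := a4 T ⟨hT, le_rfl⟩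
  refine ⟨?_, a6.trans (by linarith)⟩
  have h1 : R ^ 2 ≤ ‖X T‖ ^ 2 := by nlinarith [sq_nonneg (T - t₀)]
  exact (pow_le_pow_iff_left₀ hR.le (norm_nonneg _) (by norm_num)).1 h1

/-- one-sided version -/
theorem forward {μ ν M C E : ℝ} {r w X Y F G : ℝ → ℂ} {P : ℝ → ℝ}
    (h : Two μ ν M C E r w X Y F G P) (L t₀ : ℝ)
    (hL1 : 8 * M ≤ L) (hL2 : 4 * C * ν ≤ μ * L) (hL3 : 8 * C * M * √(2 * ν / μ) ≤ L ^ 2)
    (hg0 : 0 ≤ dt (X t₀) (Y t₀)) (hb : eps M r w t₀ * ‖X t₀‖ < -L)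
    (hr : ∀ T B : ℝ, ∃ t, T ≤ t ∧ B < ‖r t‖) : False := by
  have hM := h.M0
  have hL : 0 < L := by linarith
  set R : ℝ := ‖X t₀‖ with hRdef
  have hR : 0 < R := by
    rcases (norm_nonneg (X t₀)).lt_or_eq with h1 | h1
    · exact h1
    · exfalso
      rw [hRdef, ← h1] at hb
      linarith
  have he0 : eps M r w t₀ < -(L / R) := by
    have : eps M r w t₀ < -L / R := by
      rw [lt_div_iff₀ hR]
      exact hb
    rwa [neg_div] at this
  have hLR : 0 < L / R := by positivity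
  have e2 : L / (2 * R) = L / R / 2 := by field_simp
  have e4 : L / (4 * R) = L / R / 4 := by field_simp
  have hce : Continuous (eps M r w) :=
    continuous_iff_continuousAt.2 fun t => (hasDerivAt_eps h t).continuousAt
  have hcX : Continuous X := continuous_iff_continuousAt.2 fun t => (h.dX t).continuousAt
  -- the good set is everything
  have key : ∀ t, t₀ ≤ t → eps M r w t < -(L / (2 * R)) ∧ R / 2 < ‖X t‖ := by
    by_contra hno
    push Not at hno
    obtain ⟨t₁, ht₁, hbad⟩ := hno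
    let Bad : Set ℝ := {t | t₀ ≤ t ∧ (-(L / (2 * R)) ≤ eps M r w t ∨ ‖X t‖ ≤ R / 2)}
    have hclosed : IsClosed Bad := by
      apply isClosed_Ici.inter
      exact (isClosed_le continuous_const hce).union (isClosed_le hcX.norm continuous_const)
    have hne : Bad.Nonempty := by
      refine ⟨t₁, ht₁, ?_⟩
      by_cases h1 : eps M r w t₁ < -(L / (2 * R))
      · exact Or.inr (hbad h1)
      · exact Or.inl (not_lt.1 h1)
    have hbdd : BddBelow Bad := ⟨t₀, fun t ht => ht.1⟩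
    set T := sInf Bad with hTdef
    have hT : T ∈ Bad := hclosed.csInf_mem hne hbdd
    have hTlt : t₀ < T := by
      rcases hT.1.lt_or_eq with h1 | h1
      · exact h1
      · exfalso
        have h2 := hT.2
        rw [← h1] at h2
        rcases h2 with h2 | h2
        · rw [e2] at h2
          linarith
        · have : R ≤ R / 2 := h2
          linarith
    have hgood : ∀ u ∈ Ico t₀ T, eps M r w u < -(L / (2 * R)) ∧ R / 2 < ‖X u‖ := by
      intro u hu
      by_contra h1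
      have h2 : u ∈ Bad := by
        refine ⟨hu.1, ?_⟩
        by_cases h3 : eps M r w u < -(L / (2 * R))
        · right
          by_contra h4
          exact h1 ⟨h3, not_le.1 h4⟩
        · exact Or.inl (not_lt.1 h3)
      have h5 := csInf_le hbdd h2
      linarith [hu.2]
    have hcl : T ∈ closure (Ico t₀ T) := by
      rw [closure_Ico hTlt.ne]
      exact ⟨hTlt.le, le_rfl⟩
    have g1 : ∀ u ∈ Icc t₀ T, eps M r w u ≤ -(L / (2 * R)) := by
      intro u hu
      rcases hu.2.lt_or_eq with h1 | h1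
      · exact (hgood u ⟨hu.1, h1⟩).1.le
      · rw [h1]
        have hS : IsClosed {u | eps M r w u ≤ -(L / (2 * R))} := isClosed_le hce continuous_const
        exact hS.closure_subset_iff.2 (fun u hu => (hgood u hu).1.le) hcl
    have g2 : ∀ u ∈ Icc t₀ T, R / 2 ≤ ‖X u‖ := by
      intro u hu
      rcases hu.2.lt_or_eq with h1 | h1
      · exact (hgood u ⟨hu.1, h1⟩).2.le
      · rw [h1]
        have hS : IsClosed {u | R / 2 ≤ ‖X u‖} := isClosed_le continuous_const hcX.norm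
        exact hS.closure_subset_iff.2 (fun u hu => (hgood u hu).2.le) hcl
    obtain ⟨k1, k3⟩ := tight h L R t₀ T hR hTlt.le hL1 hL2 hL3 hRdef.symm hg0 g1 g2
    rcases hT.2 with h2 | h2
    · rw [e4] at k3
      rw [e2] at h2
      linarith
    · linarith
  obtain ⟨t, ht, hB⟩ := hr t₀ (2 * M * R / L)
  have h1 := (key t ht).1
  have hn : 0 < ‖r t‖ := norm_pos_iff.2 (h.r0 t)
  unfold eps at h1
  have h3 : 0 ≤ ‖w t‖ ^ 2 / 2 := by positivity
  have h4 : L / (2 * R) ≤ M / ‖r t‖ := by linarith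
  rw [div_le_div_iff₀ (by positivity) hn] at h4
  rw [div_lt_iff₀ hL] at hB
  linarith

/-- time reversal -/
theorem two_rev {μ ν M C E : ℝ} {r w X Y F G : ℝ → ℂ} {P : ℝ → ℝ}
    (h : Two μ ν M C E r w X Y F G P) :
    Two μ ν M C E (fun t => r (-t)) (fun t => - w (-t)) (fun t => X (-t)) (fun t => - Y (-t))
      (fun t => F (-t)) (fun t => G (-t)) (fun t => P (-t)) := by
  have hneg : ∀ (f f' : ℝ → ℂ), (∀ t, HasDerivAt f (f' t) t) →
      ∀ t, HasDerivAt (fun t => f (-t)) (- f' (-t)) t := by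
    intro f f' hf t
    have := (hf (-t)).scomp t (hasDerivAt_neg t)
    refine HasDerivAt.congr_deriv (f := fun t => f (-t)) this ?_
    simp
  refine ⟨h.μ0, h.ν0, h.M0, h.C0, h.E0, fun t => h.r0 _, ?_, ?_, ?_, ?_, ?_, fun t => h.P0 _,
    fun t => h.far _⟩
  · exact hneg r w h.dr
  · intro t
    have := (hneg w _ h.dw t).neg
    refine HasDerivAt.congr_deriv (f := fun t => - w (-t)) this ?_
    simp
  · exact hneg X Y h.dX
  · intro t
    have := (hneg Y _ h.dY t).neg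
    refine HasDerivAt.congr_deriv (f := fun t => - Y (-t)) this ?_
    simp
  · intro t
    simpa using h.en (-t)

theorem t_ESC : S_ESC := by
  intro μ ν M C hμ hν hM hC
  set s : ℝ := √(2 * ν / μ) with hs
  have hs0 : 0 ≤ s := Real.sqrt_nonneg _
  let L : ℝ := 8 * M + 4 * C * ν / μ + 8 * C * M * s + 1
  have p1 : 0 ≤ 4 * C * ν / μ := by positivity
  have p2 : 0 ≤ 8 * C * M * s := by positivity
  have hL : 1 ≤ L := by
    show 1 ≤ 8 * M + 4 * C * ν / μ + 8 * C * M * s + 1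
    linarith
  have hL1 : 8 * M ≤ L := by
    show 8 * M ≤ 8 * M + 4 * C * ν / μ + 8 * C * M * s + 1
    linarith
  have hL2 : 4 * C * ν ≤ μ * L := by
    have h1 : 4 * C * ν / μ ≤ L := by
      show 4 * C * ν / μ ≤ 8 * M + 4 * C * ν / μ + 8 * C * M * s + 1
      linarith
    rw [div_le_iff₀ hμ] at h1
    linarith
  have hL3 : 8 * C * M * s ≤ L ^ 2 := by
    have h1 : 8 * C * M * s ≤ L := by
      show 8 * C * M * s ≤ 8 * M + 4 * C * ν / μ + 8 * C * M * s + 1
      linarith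
    nlinarith
  refine ⟨L, by linarith, ?_⟩
  intro E r w X Y F G P h hf hp t
  by_contra hb
  push Not at hb
  rcases le_total 0 (dt (X t) (Y t)) with h1 | h1
  · exact forward h L t hL1 hL2 hL3 h1 hb hf
  · refine forward (two_rev h) L (-t) hL1 hL2 hL3 ?_ ?_ ?_
    · simp only [neg_neg]
      have : dt (X t) (-Y t) = - dt (X t) (Y t) := by
        simp [dt]
        ring
      rw [this]
      linarith
    · have : eps M (fun t => r (-t)) (fun t => - w (-t)) (-t) = eps M r w t := by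
        simp [eps]
      rw [this]
      simpa using hb
    · intro T B
      obtain ⟨u, hu, hB⟩ := hp (-T) B
      exact ⟨-u, by linarith, by simpa using hB⟩

end Pool.Agent.J4H98.TB
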