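import Pool.Agent.J4H98.TB.Esc

/-!
# Staying near a right angle costs `v` (job TB-STN)
-/

set_option autoImplicit false

namespace Pool.Agent.J4H98.TB

open Filter Topology Set
open Pool.Agent.J4H12.TB

/-- comparison of a quantity with the clock -/
theorem clock {m : Fin 3 → ℝ} {C E : ℝ} {q v : Fin 3 → ℝ → ℂ} (hB : Bas m C E q v) (hE : 0 ≤ E)
    (hC : 0 ≤ C) (τ : ℝ) (hρ : ∀ x ∈ Icc 0 τ, 1 / 2 ≤ rho m q x) (Q : ℝ → ℝ)
    (hQ : ∀ x, ∃ d, HasDerivAt Q d x ∧ |d| ≤ C * (√(W m q v x) / rho m q x)) :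
    ∀ x ∈ Icc 0 τ, |Q x - Q 0| ≤ C * (3 / 2 * x + (vv m q v x - vv m q v 0)) := by
  choose d hd hd2 using hQ
  have key : ∀ x ∈ Icc 0 τ, √(W m q v x) / rho m q x ≤
      3 / 2 + (W m q v x / 2 + E) / √(rho m q x) := by
    intro x hx
    have h1 := hρ x hx
    have h2 := hB.W0 x
    have h3 : 0 < rho m q x := hB.rpos x
    set ρ := rho m q x
    set w := W m q v x
    have hs : 0 < √ρ := Real.sqrt_pos.2 h3
    have hs2 : √ρ ^ 2 = ρ := Real.sq_sqrt h3.le
    have hw : √w ^ 2 = w := Real.sq_sqrt h2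
    have hρ3 : 1 ≤ 3 * (ρ * √ρ) := by
      have h4 : (2 / 3 : ℝ) ≤ √ρ := by
        apply Real.le_sqrt_of_sq_le
        norm_num
        linarith
      have h44 := mul_le_mul h1 h4 (by norm_num) h3.le
      linarith
    have h5 : √w / ρ = √w * √ρ / (ρ * √ρ) := by field_simp
    have h6 : √w * √ρ ≤ 1 / 2 + w * ρ / 2 := by
      have := sq_nonneg (√w * √ρ - 1)
      have h7 : (√w * √ρ) ^ 2 = w * ρ := by rw [mul_pow, hw, hs2]
      linarith
    have hp : 0 < ρ * √ρ := by positivity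
    rw [h5]
    calc √w * √ρ / (ρ * √ρ) ≤ (1 / 2 + w * ρ / 2) / (ρ * √ρ) :=
          div_le_div_of_nonneg_right h6 hp.le
      _ = (1 / 2) / (ρ * √ρ) + (w / 2) / √ρ := by field_simp
      _ ≤ 3 / 2 + (w / 2 + E) / √ρ := by
          apply add_le_add
          · rw [div_le_iff₀ hp]
            linarith
          · apply div_le_div_of_nonneg_right _ hs.le
            linarith
  have hmono : ∀ (e : ℝ), e ^ 2 = 1 → MonotoneOn (fun x => C * (3 / 2 * x + vv m q v x) + e * Q x)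
      (Icc 0 τ) := by
    intro e he
    have hdd : ∀ x, HasDerivAt (fun x => C * (3 / 2 * x + vv m q v x) + e * Q x)
        (C * (3 / 2 * 1 + (W m q v x / 2 + E) / √(rho m q x)) + e * d x) x := fun x =>
      ((((hasDerivAt_id x).const_mul (3 / 2)).add (hB.dvv x)).const_mul C).add
        ((hd x).const_mul e)
    apply monotoneOn_of_deriv_nonneg (convex_Icc 0 τ)
    · exact fun u _ => (hdd u).continuousAt.continuousWithinAt
    · exact fun u _ => (hdd u).differentiableAt.differentiableWithinAt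
    · intro u hu
      rw [interior_Icc] at hu
      rw [(hdd u).deriv]
      have h1 := key u ⟨hu.1.le, hu.2.le⟩
      have h2 := hd2 u
      have h3 : |e * d u| ≤ C * (√(W m q v u) / rho m q u) := by
        rw [abs_mul]
        have : |e| = 1 := by
          have := congrArg Real.sqrt he
          rwa [Real.sqrt_sq_eq_abs, Real.sqrt_one] at this
        rw [this, one_mul]
        exact h2
      have h4 := (abs_le.1 h3).1
      have h5 : C * (√(W m q v u) / rho m q u) ≤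
          C * (3 / 2 + (W m q v u / 2 + E) / √(rho m q u)) := mul_le_mul_of_nonneg_left h1 hC
      linarith
  intro x hx
  have h0 : (0 : ℝ) ∈ Icc 0 τ := ⟨le_rfl, hx.1.trans hx.2⟩
  have h1 := hmono 1 (by norm_num) h0 hx hx.1
  have h2 := hmono (-1) (by norm_num) h0 hx hx.1
  simp only at h1 h2
  rw [abs_le]
  constructor <;> linarith

theorem chi_psi (z w : ℂ) : cr z w ^ 2 + dt z w ^ 2 = ‖z‖ ^ 2 * ‖w‖ ^ 2 := by
  rw [Complex.sq_norm, Complex.sq_norm, Complex.normSq_apply, Complex.normSq_apply]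
  simp only [cr, dt]
  ring

/-- the normalised statement -/
theorem core (hB : S_BAS) (hP : S_PSI) (m : Fin 3 → ℝ) (hm : ∀ a, 0 < m a) (δ V : ℝ) (hδ : 0 < δ)
    (hV : 0 < V) : ∃ c : ℝ, 0 < c ∧ ∀ (E : ℝ) (q v : Fin 3 → ℝ → ℂ), Sol m E q v →
    Spd V m E q v → ∀ t : ℝ, 0 ≤ t → Near m E q 0 t → rho m q 0 = 1 → psi q 0 0 = 0 →
    (∀ p, 2 * δ ≤ D q p 0) → chi q t = 0 → c ≤ vv m q v t - vv m q v 0 := by
  obtain ⟨C, hC1, hB⟩ := hB m hm
  obtain ⟨κ, c1, C1, hκ, hc1, hC1', hP⟩ := hP m hm δ V hδ hV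
  set S : ℝ := √(2 * V) with hSdef
  have hS : 0 < S := Real.sqrt_pos.2 (by positivity)
  have hS2 : S ^ 2 = 2 * V := Real.sq_sqrt (by positivity)
  set b : ℝ := min (min δ κ) (2 * δ ^ 2) with hb
  have hbp : 0 < b := by
    rw [hb]
    exact lt_min (lt_min hδ hκ) (by positivity)
  have hb1 : b ≤ δ := (min_le_left _ _).trans (min_le_left _ _)
  have hb2 : b ≤ κ := (min_le_left _ _).trans (min_le_right _ _)
  have hb3 : b ≤ 2 * δ ^ 2 := min_le_right _ _
  have hC0 : 0 < C := by linarith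
  set θ : ℝ := min (1 / (3 * S)) (b / (3 * C)) with hθdef
  have hθ : 0 < θ := lt_min (by positivity) (by positivity)
  have hθ1 : 3 * S * θ ≤ 1 := by
    have h1 : θ ≤ 1 / (3 * S) := min_le_left _ _
    rw [le_div_iff₀ (by positivity)] at h1
    linarith
  have hθ2 : 3 * C * θ ≤ b := by
    have h1 : θ ≤ b / (3 * C) := min_le_right _ _
    rw [le_div_iff₀ (by positivity)] at h1
    linarith
  set c2 : ℝ := 2 * c1 / 3 with hc2
  have hc2p : 0 < c2 := by positivity
  set κ2 : ℝ := c2 * θ / (9 * C1) with hκ2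
  have hκ2p : 0 < κ2 := by positivity
  set A : ℝ := 3 / 4 * C1 * θ / κ2 + C1 * θ ^ 2 with hA
  have hAp : 0 < A := by positivity
  set c : ℝ := min (θ / 2) (c2 * θ ^ 3 / (48 * A)) with hc
  have hcp : 0 < c := lt_min (by positivity) (by positivity)
  have hcθ : c ≤ θ / 2 := min_le_left _ _
  have hcA : 48 * A * c ≤ c2 * θ ^ 3 := by
    have h1 : c ≤ c2 * θ ^ 3 / (48 * A) := min_le_right _ _
    rw [le_div_iff₀ (by positivity)] at h1
    linarith
  refine ⟨c, hcp, ?_⟩
  intro E q v hSol hSpd t ht hN hρ0 hψ hD hχ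
  by_contra hno
  push Not at hno
  have hBa := hB E q v hSol
  have hE := hSol.Epos
  -- monotonicity of vv
  have hvm : Monotone (vv m q v) := by
    apply monotone_of_deriv_nonneg
    · exact fun x => (hBa.dvv x).differentiableAt
    · intro x
      rw [(hBa.dvv x).deriv]
      have := hBa.W0 x
      positivity
  have hvb : ∀ x ∈ Icc 0 t, |vv m q v x| ≤ S := by
    intro x hx
    have h1 := hSpd x
    have h2 := hN x hx
    have h3 := hBa.rpos x
    apply abs_le_of_sq_le_sq' _ hS.le |> abs_le.2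
    rw [hS2]
    have h4 : vv m q v x ^ 2 = rho m q x * (J m q v x / rho m q x) ^ 2 := by
      rw [vv, div_pow, Real.sq_sqrt h3.le]
      field_simp
    rw [h4]
    calc rho m q x * (J m q v x / rho m q x) ^ 2 ≤ rho m q x * (V * (E + 1 / rho m q x)) :=
          mul_le_mul_of_nonneg_left h1 h3.le
      _ = V * (E * rho m q x + 1) := by field_simp
      _ ≤ V * 2 := mul_le_mul_of_nonneg_left (by linarith) hV.le
      _ = 2 * V := by ring
  -- size of rho
  have hρb : ∀ x ∈ Icc 0 t, x ≤ θ → 1 / 2 ≤ rho m q x ∧ rho m q x ≤ 3 / 2 := by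
    intro x hx hxθ
    have hf : ∀ y, HasDerivAt (fun y => rho m q y * √(rho m q y)) (3 / 2 * vv m q v y) y := by
      intro y
      have h3 := hBa.rpos y
      have hs : 0 < √(rho m q y) := Real.sqrt_pos.2 h3
      have h4 := (hBa.drho y).mul ((hBa.drho y).sqrt h3.ne')
      refine h4.congr_deriv ?_
      rw [vv]
      have hs2 : √(rho m q y) ^ 2 = rho m q y := Real.sq_sqrt h3.le
      set s := √(rho m q y)
      rw [← hs2]
      field_simp
      ring
    have hle : ∀ y ∈ Icc 0 x, |3 / 2 * vv m q v y| ≤ 3 / 2 * S := by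
      intro y hy
      rw [abs_mul, abs_of_pos (by norm_num : (0 : ℝ) < 3 / 2)]
      exact mul_le_mul_of_nonneg_left (hvb y ⟨hy.1, hy.2.trans hx.2⟩) (by norm_num)
    have hmv := (convex_Icc 0 x).norm_image_sub_le_of_norm_hasDerivWithin_le
      (f := fun y => rho m q y * √(rho m q y)) (f' := fun y => 3 / 2 * vv m q v y)
      (C := 3 / 2 * S) (fun y _ => (hf y).hasDerivWithinAt) hle
      (⟨le_rfl, hx.1⟩ : (0 : ℝ) ∈ Icc 0 x) (⟨hx.1, le_rfl⟩ : x ∈ Icc 0 x)
    rw [Real.norm_eq_abs, Real.norm_eq_abs] at hmv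
    simp only [hρ0, Real.sqrt_one, mul_one, sub_zero] at hmv
    rw [abs_of_nonneg hx.1] at hmv
    have h5 : 3 / 2 * S * x ≤ 1 / 2 := by
      have := mul_le_mul_of_nonneg_left hxθ hS.le
      linarith
    have h6 := abs_le.1 (hmv.trans h5)
    have h3 := hBa.rpos x
    have hs : 0 < √(rho m q x) := Real.sqrt_pos.2 h3
    have hs2 : √(rho m q x) ^ 2 = rho m q x := Real.sq_sqrt h3.le
    constructor
    · by_contra h7
      push Not at h7
      have h8 : √(rho m q x) ≤ 1 := Real.sqrt_le_iff.2 ⟨zero_le_one, by rw [one_pow]; linarith⟩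
      have := mul_le_mul_of_nonneg_left h8 h3.le
      linarith [h6.1]
    · by_contra h7
      push Not at h7
      have h8 : 1 ≤ √(rho m q x) := by
        exact Real.one_le_sqrt.2 (by linarith)
      have := mul_le_mul_of_nonneg_left h8 h3.le
      linarith [h6.2]
  -- movement of the shape
  have hmove : ∀ τ, τ ≤ t → τ ≤ θ → ∀ Q : ℝ → ℝ,
      (∀ x, ∃ d, HasDerivAt Q d x ∧ |d| ≤ C * (√(W m q v x) / rho m q x)) →
      ∀ x ∈ Icc 0 τ, |Q x - Q 0| ≤ 2 / 3 * b := by
    intro τ hτ hτθ Q hQ x hx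
    have h1 := clock hBa hE.le hC0.le τ
      (fun y hy => (hρb y ⟨hy.1, hy.2.trans hτ⟩ (hy.2.trans hτθ)).1) Q hQ x hx
    refine h1.trans ?_
    have h2 : vv m q v x ≤ vv m q v t := hvm (hx.2.trans hτ)
    have h3 : x ≤ θ := hx.2.trans hτθ
    have h4 : C * (3 / 2 * x + (vv m q v x - vv m q v 0)) ≤ C * (2 * θ) := by
      apply mul_le_mul_of_nonneg_left _ hC0.le
      linarith
    linarith
  -- t > θ
  have hθt : θ < t := by
    by_contra hle
    push Not at hle
    have h1 := hmove t le_rfl hle (fun t => chi q t / rho m q t ^ 2) hBa.dchi t ⟨ht, le_rfl⟩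
    simp only [hχ, hρ0, zero_div, one_pow, div_one, zero_sub, abs_neg] at h1
    have h2 := chi_psi (q 1 0 - q 0 0) (q 2 0 - q 0 0)
    have h3 : cr (q 1 0 - q 0 0) (q 2 0 - q 0 0) = chi q 0 := rfl
    have h4 : dt (q 1 0 - q 0 0) (q 2 0 - q 0 0) = psi q 0 0 := rfl
    rw [h3, h4, hψ] at h2
    have h5 : 2 * δ ≤ ‖q 1 0 - q 0 0‖ := hD 2
    have h6 : 2 * δ ≤ ‖q 2 0 - q 0 0‖ := by
      have := hD 1
      rw [norm_sub_rev]
      exact this
    have h7 : (4 * δ ^ 2) ^ 2 ≤ chi q 0 ^ 2 := by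
      have h8 : (2 * δ) ^ 2 ≤ ‖q 1 0 - q 0 0‖ ^ 2 := pow_le_pow_left₀ (by positivity) h5 2
      have h9 : (2 * δ) ^ 2 ≤ ‖q 2 0 - q 0 0‖ ^ 2 := pow_le_pow_left₀ (by positivity) h6 2
      have h10 : (2 * δ) ^ 2 * (2 * δ) ^ 2 ≤ ‖q 1 0 - q 0 0‖ ^ 2 * ‖q 2 0 - q 0 0‖ ^ 2 :=
        mul_le_mul h8 h9 (by positivity) (by positivity)
      linarith
    have h11 : |chi q 0| ^ 2 ≤ (2 / 3 * b) ^ 2 := pow_le_pow_left₀ (abs_nonneg _) h1 2
    rw [sq_abs] at h11
    have h12 : 4 * δ ^ 2 ≤ 2 / 3 * b := by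
      have := h7.trans h11
      exact (pow_le_pow_iff_left₀ (by positivity) (by positivity) (by norm_num)).1 this
    have : 0 < δ ^ 2 := by positivity
    linarith
  -- the right angle persists
  have hpsi : ∀ x ∈ Icc 0 θ, |Hf m q v x| ≤ C1 * rho m q x * √(W m q v x) ∧
      ∃ h, HasDerivAt (Hf m q v) h x ∧ h ≤ - c1 / rho m q x + C1 * W m q v x := by
    intro x hx
    have h3 := hBa.rpos x
    refine hP E q v hSol hSpd x (hN x ⟨hx.1, hx.2.trans hθt.le⟩) ?_ ?_
    · intro p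
      have h1 := hmove θ hθt.le le_rfl (fun t => D q p t / rho m q t) (hBa.dD p) x hx
      simp only [hρ0, div_one] at h1
      have h2 := (abs_le.1 h1).1
      have h4 := hD p
      have h5 : δ ≤ D q p x / rho m q x := by linarith
      rwa [le_div_iff₀ h3] at h5
    · have h1 := hmove θ hθt.le le_rfl (fun t => psi q 0 t / rho m q t ^ 2) (hBa.dpsi 0) x hx
      simp only [hρ0, hψ, one_pow, zero_div, sub_zero] at h1
      rw [abs_div, abs_of_pos (by positivity : 0 < rho m q x ^ 2), div_le_iff₀ (by positivity)] at h1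
      have h2 : 2 / 3 * b * rho m q x ^ 2 ≤ κ * rho m q x ^ 2 := by
        apply mul_le_mul_of_nonneg_right _ (by positivity)
        linarith
      exact h1.trans h2
  -- integrate
  choose! h' hh' hh'2 using fun x hx => (hpsi x hx).2
  let Φ : ℝ → ℝ := fun x => x * (θ - x) * Hf m q v x + c2 * (θ * x ^ 2 / 2 - x ^ 3 / 3)
    - c2 * θ ^ 2 / 12 * x - 3 * A * vv m q v x
  have hdΦ : ∀ x ∈ Icc 0 θ, HasDerivAt Φ ((θ - 2 * x) * Hf m q v x + x * (θ - x) * h' x +
      c2 * (x * (θ - x)) - c2 * θ ^ 2 / 12 - 3 * A * ((W m q v x / 2 + E) / √(rho m q x))) x := by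
    intro x hx
    have e1 : HasDerivAt (fun x : ℝ => x * (θ - x)) (1 * (θ - x) + x * (0 - 1)) x :=
      (hasDerivAt_id x).mul ((hasDerivAt_const x θ).sub (hasDerivAt_id x))
    have e2 := e1.mul (hh' x hx)
    have e3 : HasDerivAt (fun x : ℝ => c2 * (θ * x ^ 2 / 2 - x ^ 3 / 3))
        (c2 * (θ * (2 * x ^ 1) / 2 - (3 * x ^ 2) / 3)) x := by
      have g1 := ((hasDerivAt_pow 2 x).const_mul θ).div_const 2
      have g2 := (hasDerivAt_pow 3 x).div_const 3
      have g3 := (g1.sub g2).const_mul c2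
      refine g3.congr_deriv ?_
      norm_num
    have e4 := (hasDerivAt_id x).const_mul (c2 * θ ^ 2 / 12)
    have e5 := (hBa.dvv x).const_mul (3 * A)
    refine (((e2.add e3).sub e4).sub e5).congr_deriv ?_
    simp only [mul_one]
    ring
  have hanti : AntitoneOn Φ (Icc 0 θ) := by
    apply antitoneOn_of_deriv_nonpos (convex_Icc 0 θ)
    · exact fun u hu => (hdΦ u hu).continuousAt.continuousWithinAt
    · intro u hu
      rw [interior_Icc] at hu
      exact (hdΦ u ⟨hu.1.le, hu.2.le⟩).differentiableAt.differentiableWithinAt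
    · intro x hx
      rw [interior_Icc] at hx
      have hx' : x ∈ Icc 0 θ := ⟨hx.1.le, hx.2.le⟩
      rw [(hdΦ x hx').deriv]
      obtain ⟨r1, r2⟩ := hρb x ⟨hx'.1, hx'.2.trans hθt.le⟩ hx'.2
      have h1 := (hpsi x hx').1
      have h2 := hh'2 x hx'
      have hW := hBa.W0 x
      have h3 := hBa.rpos x
      set ρ := rho m q x
      set w := W m q v x
      set H := Hf m q v x
      have hs : 0 < √ρ := Real.sqrt_pos.2 h3
      have hs2 : √ρ ^ 2 = ρ := Real.sq_sqrt h3.le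
      have hw : √w ^ 2 = w := Real.sq_sqrt hW
      -- vv' bounds w
      have k1 : w ≤ 3 * ((w / 2 + E) / √ρ) := by
        rw [mul_div_assoc', le_div_iff₀ hs]
        have h4 : √ρ ≤ 3 / 2 := by
          rw [Real.sqrt_le_left (by norm_num)]
          norm_num
          linarith
        have h5 := mul_le_mul_of_nonneg_left h4 hW
        linarith
      -- the term with H
      have k2 : (θ - 2 * x) * H ≤ θ * |H| := by
        have : |θ - 2 * x| ≤ θ := by
          rw [abs_le]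
          constructor <;> linarith [hx.1, hx.2]
        calc (θ - 2 * x) * H ≤ |(θ - 2 * x) * H| := le_abs_self _
          _ = |θ - 2 * x| * |H| := abs_mul _ _
          _ ≤ θ * |H| := mul_le_mul_of_nonneg_right this (abs_nonneg _)
      have k3 : |H| ≤ C1 * (3 / 2) * ((κ2 + w / κ2) / 2) := by
        have h4 : √w ≤ (κ2 + w / κ2) / 2 := by
          have h5 : w / κ2 = √w ^ 2 / κ2 := by rw [hw]
          rw [h5]
          have h6 := sq_nonneg (√w - κ2)
          rw [le_div_iff₀ (by norm_num), ← sub_nonneg]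
          have h7 : κ2 + √w ^ 2 / κ2 - √w * 2 = (√w - κ2) ^ 2 / κ2 := by
            field_simp
            ring
          rw [h7]
          positivity
        calc |H| ≤ C1 * ρ * √w := h1
          _ ≤ C1 * (3 / 2) * ((κ2 + w / κ2) / 2) := by
              apply mul_le_mul _ h4 (Real.sqrt_nonneg _) (by positivity)
              exact mul_le_mul_of_nonneg_left r2 hC1'.le
      have k4 : θ * |H| ≤ c2 * θ ^ 2 / 12 + 3 / 4 * C1 * θ / κ2 * w := by
        calc θ * |H| ≤ θ * (C1 * (3 / 2) * ((κ2 + w / κ2) / 2)) :=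
              mul_le_mul_of_nonneg_left k3 hθ.le
          _ = 3 / 4 * C1 * θ * κ2 + 3 / 4 * C1 * θ / κ2 * w := by
              field_simp
              ring
          _ = c2 * θ ^ 2 / 12 + 3 / 4 * C1 * θ / κ2 * w := by
              congr 1
              rw [hκ2]
              field_simp
              ring
      have k5 : h' x ≤ - c2 + C1 * w := by
        have h4 : c2 ≤ c1 / ρ := by
          rw [hc2, le_div_iff₀ h3]
          have := mul_le_mul_of_nonneg_left r2 hc1.le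
          linarith
        have h5 : - c1 / ρ = -(c1 / ρ) := by ring
        rw [h5] at h2
        linarith
      have hω0 : 0 ≤ x * (θ - x) := mul_nonneg hx.1.le (by linarith [hx.2])
      have hω1 : x * (θ - x) ≤ θ ^ 2 := by
        have := mul_le_mul hx.2.le (show θ - x ≤ θ by linarith [hx.1]) (by linarith [hx.2]) hθ.le
        linarith
      have k6 : x * (θ - x) * h' x ≤ - c2 * (x * (θ - x)) + C1 * θ ^ 2 * w := by
        have h4 : x * (θ - x) * h' x ≤ x * (θ - x) * (- c2 + C1 * w) :=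
          mul_le_mul_of_nonneg_left k5 hω0
        have h5 : x * (θ - x) * (C1 * w) ≤ θ ^ 2 * (C1 * w) :=
          mul_le_mul_of_nonneg_right hω1 (by positivity)
        linarith
      have k7 : A * w ≤ A * (3 * ((w / 2 + E) / √ρ)) := mul_le_mul_of_nonneg_left k1 hAp.le
      have k8 : A * w = 3 / 4 * C1 * θ / κ2 * w + C1 * θ ^ 2 * w := by
        rw [hA]; ring
      linarith
  have hfin := hanti (⟨le_rfl, hθ.le⟩ : (0 : ℝ) ∈ Icc 0 θ) (⟨hθ.le, le_rfl⟩ : θ ∈ Icc 0 θ) hθ.le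
  simp only [Φ] at hfin
  have h1 : vv m q v θ ≤ vv m q v t := hvm hθt.le
  have h2 : c2 * θ ^ 3 / 12 ≤ 3 * A * (vv m q v θ - vv m q v 0) := by linarith
  have h3 : 3 * A * (vv m q v θ - vv m q v 0) ≤ 3 * A * c := by
    apply mul_le_mul_of_nonneg_left _ (by positivity)
    linarith
  have h4 : 0 < c2 * θ ^ 3 := by positivity
  linarith

theorem t_STN (hB : S_BAS) (hT : S_SHT) (hS : S_SCL) (hC : S_CYC) (hP : S_PSI) : S_STN := by
  intro m hm δ V hδ hV
  choose c hc hcore using fun a : Fin 3 => core hB hP (fun b => m (b + a)) (fun b => hm _) δ V hδ hV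
  refine ⟨min (c 0) (min (c 1) (c 2)), lt_min (hc 0) (lt_min (hc 1) (hc 2)), ?_⟩
  intro E q v hSol hSpd s t hst hN a hψ hD hχ
  have hmin : min (c 0) (min (c 1) (c 2)) ≤ c a := by
    fin_cases a
    · exact min_le_left _ _
    · exact (min_le_right _ _).trans (min_le_left _ _)
    · exact (min_le_right _ _).trans (min_le_right _ _)
  refine hmin.trans ?_
  obtain ⟨C, hC1, hB⟩ := hB m hm
  have hBa := hB E q v hSol
  set R : ℝ := rho m q s with hR
  have hRp : 0 < R := hBa.rpos s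
  set k : ℝ := √R with hk
  have hkp : 0 < k := Real.sqrt_pos.2 hRp
  have hk2 : k ^ 2 = R := Real.sq_sqrt hRp.le
  -- renumber
  obtain ⟨hSol1, hc1⟩ := hC m E q v a hSol
  -- shift
  have hSol2 := hT _ E s _ _ hSol1
  -- scale
  obtain ⟨hSol3, hs3⟩ := hS _ E k _ _ hSol2 hkp
  set q3 : Fin 3 → ℝ → ℂ := fun b t => ((k ^ 2)⁻¹ : ℝ) * (fun b t => (fun b => q (b + a)) b (t + s)) b (k ^ 3 * t) with hq3
  set v3 : Fin 3 → ℝ → ℂ := fun b t => (k : ℂ) * (fun b t => (fun b => v (b + a)) b (t + s)) b (k ^ 3 * t) with hv3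
  have hkey := hcore a (k ^ 2 * E) q3 v3 hSol3
  have hρ3 : ∀ x, rho (fun b => m (b + a)) q3 x = (k ^ 2)⁻¹ * rho m q (k ^ 3 * x + s) := by
    intro x
    rw [(hs3 x).1]
    congr 1
    exact (hc1 (k ^ 3 * x + s)).1
  have hJ3 : ∀ x, J (fun b => m (b + a)) q3 v3 x = k⁻¹ * J m q v (k ^ 3 * x + s) := by
    intro x
    rw [(hs3 x).2.1]
    congr 1
    exact (hc1 (k ^ 3 * x + s)).2.1
  have hv3' : ∀ x, vv (fun b => m (b + a)) q3 v3 x = vv m q v (k ^ 3 * x + s) := by
    intro x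
    rw [(hs3 x).2.2.1]
    exact (hc1 (k ^ 3 * x + s)).2.2.2.1
  have hD3 : ∀ x p, D q3 p x = (k ^ 2)⁻¹ * D q (p + a) (k ^ 3 * x + s) := by
    intro x p
    rw [(hs3 x).2.2.2.1 p]
    congr 1
    exact (hc1 (k ^ 3 * x + s)).2.2.2.2.1 p
  have hψ3 : ∀ x, psi q3 0 x = ((k ^ 2)⁻¹) ^ 2 * psi q a (k ^ 3 * x + s) := by
    intro x
    rw [(hs3 x).2.2.2.2.1 0]
    congr 1
    have := (hc1 (k ^ 3 * x + s)).2.2.2.2.2.1 0
    rw [zero_add] at this
    exact this
  have hχ3 : ∀ x, chi q3 x = ((k ^ 2)⁻¹) ^ 2 * chi q (k ^ 3 * x + s) := by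
    intro x
    rw [(hs3 x).2.2.2.2.2.1]
    congr 1
    exact (hc1 (k ^ 3 * x + s)).2.2.2.2.2.2.1
  have hk3 : 0 < k ^ 3 := by positivity
  have e0 : k ^ 3 * 0 + s = s := by ring
  have e1 : k ^ 3 * ((t - s) / k ^ 3) + s = t := by
    field_simp
    ring
  have hfin := hkey ?_ ((t - s) / k ^ 3) (by have : 0 ≤ t - s := by linarith
                                             positivity) ?_ ?_ ?_ ?_ ?_
  · rw [hv3', hv3', e0, e1] at hfin
    exact hfin
  · -- Spd
    intro x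
    rw [hJ3, hρ3]
    have h1 := hSpd (k ^ 3 * x + s)
    have h2 := hBa.rpos (k ^ 3 * x + s)
    have h3 : k⁻¹ * J m q v (k ^ 3 * x + s) / ((k ^ 2)⁻¹ * rho m q (k ^ 3 * x + s)) =
        k * (J m q v (k ^ 3 * x + s) / rho m q (k ^ 3 * x + s)) := by
      field_simp
    rw [h3, mul_pow]
    calc k ^ 2 * (J m q v (k ^ 3 * x + s) / rho m q (k ^ 3 * x + s)) ^ 2
        ≤ k ^ 2 * (V * (E + 1 / rho m q (k ^ 3 * x + s))) :=
          mul_le_mul_of_nonneg_left h1 (by positivity)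
      _ = _ := by field_simp
  · -- Near
    intro x hx
    rw [hρ3]
    have h1 := hN (k ^ 3 * x + s) ⟨by
      have := mul_nonneg hk3.le hx.1
      linarith, by
      have := hx.2
      rw [le_div_iff₀ hk3] at this
      linarith⟩
    calc k ^ 2 * E * ((k ^ 2)⁻¹ * rho m q (k ^ 3 * x + s)) = E * rho m q (k ^ 3 * x + s) := by
          field_simp
      _ ≤ 1 := h1
  · rw [hρ3, e0, hk2, ← hR]
    exact inv_mul_cancel₀ hRp.ne'
  · rw [hψ3, e0, hψ, mul_zero]
  · intro p
    rw [hD3, e0, hk2]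
    have h1 := hD (p + a)
    rw [inv_mul_eq_div, le_div_iff₀ hRp]
    exact h1
  · rw [hχ3, e1, hχ, mul_zero]

end Pool.Agent.J4H98.TB
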